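import Pool.Agent.Run7.h92.JG.Stm

/-!
# Project JG (helper92), piece GEN (helper379): the transformation laws of `S` and `T` give all of `SL(2, ℤ)`
-/

set_option autoImplicit false

namespace Pool.Agent.Run7.h379.JG

open Complex MatrixGroups ModularGroup Pool.Agent.Run7.h92.JG
open UpperHalfPlane hiding I

/-- the factor -/
noncomputable def jj (γ : SL(2, ℤ)) (τ : ℂ) : ℂ := (γ 1 0 : ℂ) * τ + (γ 1 1 : ℂ)

theorem coe_act (γ : SL(2, ℤ)) (τ : ℍ) :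
    ((γ • τ : ℍ) : ℂ) = ((γ 0 0 : ℂ) * τ + (γ 0 1 : ℂ)) / jj γ τ := by
  rw [coe_specialLinearGroup_apply]
  simp [jj]

theorem jj_ne (γ : SL(2, ℤ)) (τ : ℍ) : jj γ τ ≠ 0 := by
  have := denom_ne_zero (γ : GL (Fin 2) ℝ) τ
  rwa [denom_apply] at this

theorem det_rel (γ : SL(2, ℤ)) : (γ 0 0 : ℂ) * (γ 1 1 : ℂ) - (γ 0 1 : ℂ) * (γ 1 0 : ℂ) = 1 := by
  have := γ.det_coe
  rw [Matrix.det_fin_two] at this
  exact_mod_cast this

theorem mul_10 (x y : SL(2, ℤ)) : ((x * y) 1 0 : ℂ) = (x 1 0 : ℂ) * (y 0 0 : ℂ) + (x 1 1 : ℂ) * (y 1 0 : ℂ) := by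
  have : (x * y) 1 0 = x 1 0 * y 0 0 + x 1 1 * y 1 0 := by
    rw [Matrix.SpecialLinearGroup.coe_mul, Matrix.mul_apply, Fin.sum_univ_two]
  rw [this]
  push_cast
  ring

theorem mul_11 (x y : SL(2, ℤ)) : ((x * y) 1 1 : ℂ) = (x 1 0 : ℂ) * (y 0 1 : ℂ) + (x 1 1 : ℂ) * (y 1 1 : ℂ) := by
  have : (x * y) 1 1 = x 1 0 * y 0 1 + x 1 1 * y 1 1 := by
    rw [Matrix.SpecialLinearGroup.coe_mul, Matrix.mul_apply, Fin.sum_univ_two]
  rw [this]
  push_cast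
  ring

theorem jj_mul (x y : SL(2, ℤ)) (τ : ℍ) : jj (x * y) τ = jj x ((y • τ : ℍ) : ℂ) * jj y τ := by
  have hy := jj_ne y τ
  rw [coe_act y τ]
  unfold jj at hy ⊢
  rw [mul_10, mul_11]
  field_simp
  ring

theorem c_mul (x y : SL(2, ℤ)) (τ : ℍ) :
    ((x * y) 1 0 : ℂ) / jj (x * y) τ = (x 1 0 : ℂ) / (jj x ((y • τ : ℍ) : ℂ) * jj y τ ^ 2) +
      (y 1 0 : ℂ) / jj y τ := by
  have hy := jj_ne y τ
  have hx := jj_ne x (y • τ)
  have hd := det_rel y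
  rw [jj_mul, mul_10]
  have key : ((x 1 0 : ℂ) * (y 0 0 : ℂ) + (x 1 1 : ℂ) * (y 1 0 : ℂ)) * jj y τ =
      (x 1 0 : ℂ) + (y 1 0 : ℂ) * (jj x ((y • τ : ℍ) : ℂ) * jj y τ) := by
    rw [← jj_mul]
    unfold jj
    rw [mul_10, mul_11]
    linear_combination (x 1 0 : ℂ) * hd
  field_simp
  linear_combination key

/-- the transformation law -/
def Law {n : ℕ} (k : ℤ) (φ : ℍ → (Fin n → ℂ) → ℂ) (γ : SL(2, ℤ)) : Prop :=
  ∀ (τ : ℍ) (z : Fin n → ℂ), φ (γ • τ) (fun i => z i / jj γ τ) =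
    jj γ τ ^ k * cexp (Real.pi * I * (γ 1 0 : ℂ) * qd z / jj γ τ) * φ τ z

theorem qd_div {n : ℕ} (z : Fin n → ℂ) (a : ℂ) : qd (fun i => z i / a) = qd z / a ^ 2 := by
  unfold qd
  rw [Finset.sum_div]
  exact Finset.sum_congr rfl fun i _ => by rw [div_pow]

theorem law_mul {n : ℕ} {k : ℤ} {φ : ℍ → (Fin n → ℂ) → ℂ} {x y : SL(2, ℤ)} (hx : Law k φ x)
    (hy : Law k φ y) : Law k φ (x * y) := by
  intro τ z
  have h1 := hx (y • τ) (fun i => z i / jj y τ)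
  rw [hy τ z, qd_div] at h1
  have h2 : (fun i => z i / jj (x * y) τ) =
      fun i => z i / jj y τ / jj x ((y • τ : ℍ) : ℂ) := by
    funext i
    rw [jj_mul, div_div, mul_comm (jj y τ)]
  rw [mul_smul, h2, h1]
  have h3 : (Real.pi : ℂ) * I * ((x * y) 1 0 : ℂ) * qd z / jj (x * y) τ =
      (Real.pi : ℂ) * I * (x 1 0 : ℂ) * (qd z / jj y τ ^ 2) / jj x ((y • τ : ℍ) : ℂ) +
        (Real.pi : ℂ) * I * (y 1 0 : ℂ) * qd z / jj y τ := by
    have h4 := c_mul x y τ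
    have hy := jj_ne y τ
    have hx := jj_ne x (y • τ)
    calc (Real.pi : ℂ) * I * ((x * y) 1 0 : ℂ) * qd z / jj (x * y) τ =
        Real.pi * I * qd z * (((x * y) 1 0 : ℂ) / jj (x * y) τ) := by ring
      _ = _ := by
        rw [h4]
        field_simp
  rw [h3, Complex.exp_add, jj_mul, mul_zpow]
  ring

theorem law_one {n : ℕ} {k : ℤ} {φ : ℍ → (Fin n → ℂ) → ℂ} : Law k φ 1 := by
  intro τ z
  have h1 : jj 1 τ = 1 := by
    unfold jj
    simp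
  rw [h1]
  simp

theorem law_inv {n : ℕ} {k : ℤ} {φ : ℍ → (Fin n → ℂ) → ℂ} {x : SL(2, ℤ)} (hx : Law k φ x) :
    Law k φ x⁻¹ := by
  intro τ z
  have h0 : jj x ((x⁻¹ • τ : ℍ) : ℂ) * jj x⁻¹ τ = 1 := by
    rw [← jj_mul, mul_inv_cancel]
    unfold jj
    simp
  have ha := jj_ne x (x⁻¹ • τ)
  have hb := jj_ne x⁻¹ τ
  have h1 := hx (x⁻¹ • τ) (fun i => z i / jj x⁻¹ τ)
  rw [smul_inv_smul, qd_div] at h1
  have h2 : (fun i => z i / jj x⁻¹ τ / jj x ((x⁻¹ • τ : ℍ) : ℂ)) = z := by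
    funext i
    rw [div_div, mul_comm, h0, div_one]
  rw [h2] at h1
  rw [h1]
  have h3 : ((x⁻¹ : SL(2, ℤ)) 1 0 : ℂ) = -(x 1 0 : ℂ) := by
    have : (x⁻¹ : SL(2, ℤ)) 1 0 = -(x 1 0) := by
      rw [Matrix.SpecialLinearGroup.coe_inv, Matrix.adjugate_fin_two]
      simp
    rw [this]
    push_cast
    ring
  have h4 : jj x ((x⁻¹ • τ : ℍ) : ℂ) = (jj x⁻¹ τ)⁻¹ := by
    field_simp
    exact h0
  rw [h3, h4]
  have h5 : jj x⁻¹ τ ^ k * (jj x⁻¹ τ)⁻¹ ^ k = 1 := by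
    rw [← mul_zpow, mul_inv_cancel₀ hb, one_zpow]
  have h6 : cexp (Real.pi * I * -(x 1 0 : ℂ) * qd z / jj x⁻¹ τ) *
      cexp (Real.pi * I * (x 1 0 : ℂ) * (qd z / jj x⁻¹ τ ^ 2) / (jj x⁻¹ τ)⁻¹) = 1 := by
    rw [← Complex.exp_add, Complex.exp_eq_one_iff]
    refine ⟨0, ?_⟩
    rw [Int.cast_zero, zero_mul]
    field_simp
    ring
  calc φ (x⁻¹ • τ) (fun i => z i / jj x⁻¹ τ) =
      (jj x⁻¹ τ ^ k * (jj x⁻¹ τ)⁻¹ ^ k) * (cexp (Real.pi * I * -(x 1 0 : ℂ) * qd z / jj x⁻¹ τ) *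
      cexp (Real.pi * I * (x 1 0 : ℂ) * (qd z / jj x⁻¹ τ ^ 2) / (jj x⁻¹ τ)⁻¹)) *
        φ (x⁻¹ • τ) (fun i => z i / jj x⁻¹ τ) := by rw [h5, h6, one_mul, one_mul]
    _ = _ := by ring

theorem t_GEN : S_GEN := by
  intro n k φ hT hS γ
  have main : Law k φ γ := by
    have hmem : γ ∈ Subgroup.closure {S, T} := by
      simp [SpecialLinearGroup.SL2Z_generators]
    induction hmem using Subgroup.closure_induction with
    | mem x hx =>
      rcases hx with rfl | hx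
      · intro τ z
        have h1 : jj S τ = τ := by
          unfold jj
          simp [ModularGroup.S]
        have h2 : ((S : SL(2, ℤ)) 1 0 : ℂ) = 1 := by simp [ModularGroup.S]
        rw [h1, h2, hS τ z]
        congr 2
        unfold e
        congr 1
        have := τ.ne_zero
        field_simp
      · rw [Set.mem_singleton_iff] at hx
        subst hx
        intro τ z
        have h1 : jj T τ = 1 := by
          unfold jj
          simp [ModularGroup.T]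
        have h2 : ((T : SL(2, ℤ)) 1 0 : ℂ) = 0 := by simp [ModularGroup.T]
        rw [h1, h2]
        simp only [div_one, one_zpow, mul_zero, zero_mul, Complex.exp_zero, one_mul]
        exact hT τ z
    | one => exact law_one
    | mul x y _ _ hx hy => exact law_mul hx hy
    | inv x _ hx => exact law_inv hx
  exact main

end Pool.Agent.Run7.h379.JG
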