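import Pool.Agent.Run7.h92.JG.Stm

/-!
# Project JG (helper92), piece TSUM (helper379): summability of the theta series of `D_n^+`
-/

set_option autoImplicit false

namespace Pool.Agent.Run7.h379.JG

open Complex Pool.Agent.Run7.h92.JG

theorem e_sum {ι : Type*} (s : Finset ι) (f : ι → ℂ) : e (∑ i ∈ s, f i) = ∏ i ∈ s, e (f i) := by
  unfold e
  rw [Finset.mul_sum, Complex.exp_sum]

theorem t_TSUM : S_PROD → S_VT → S_TSUM := by
  intro hP hV n τ z hτ
  set g : Fin n → ℤ → ℂ := fun i m => e ((m : ℂ) ^ 2 * (τ / 4) / 2 + (m : ℂ) * (z i / 2)) with hg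
  have h1 : ∀ i, Summable fun m => ‖g i m‖ := by
    intro i
    have hτ4 : 0 < (τ / 4).im := by
      have : (τ / 4).im = τ.im / 4 := by
        rw [show (4 : ℂ) = ((4 : ℝ) : ℂ) by norm_num, Complex.div_ofReal_im]
      rw [this]
      positivity
    have := (hV 0 0 (τ / 4) (z i / 2) hτ4).1
    simpa [hg] using this
  have h2 := (hP n g h1).1
  set w : (Fin n → ℤ) → (Fin n → ℝ) := fun v i => (v i : ℝ) / 2 with hw
  have hinj : Function.Injective w := by
    intro v v' h
    funext i
    have := congrFun h i
    simp only [hw] at this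
    have h3 : (v i : ℝ) = v' i := by linarith
    exact_mod_cast h3
  rw [← hinj.summable_iff (f := tt (Mlat n) τ z)]
  · refine Summable.of_norm_bounded h2 ?_
    intro v
    simp only [Function.comp, tt]
    refine (norm_indicator_le_norm_self _ _).trans ?_
    apply le_of_eq
    congr 1
    rw [← e_sum]
    congr 1
    unfold ip pr
    push_cast
    rw [Finset.sum_mul, Finset.sum_div, ← Finset.sum_add_distrib]
    refine Finset.sum_congr rfl fun i _ => ?_
    simp only [hw]
    push_cast
    ring
  · intro x hx
    unfold tt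
    rw [Set.indicator_of_notMem]
    intro hxM
    apply hx
    rcases hxM.1 with h | h
    · choose a ha using h
      exact ⟨fun i => 2 * a i, by funext i; simp only [hw]; rw [ha i]; push_cast; ring⟩
    · choose a ha using h
      exact ⟨fun i => 2 * a i + 1, by funext i; simp only [hw]; rw [ha i]; push_cast; ring⟩

end Pool.Agent.Run7.h379.JG
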